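import Pool.Agent.Work.MP_a33cdf_gt.General

/-!
# Closed subspaces of small density, subspaces of large density, at singular cardinals
-/

set_option autoImplicit false

open Cardinal Ordinal

namespace Pool.Agent.Results.MP_a33cdf_gt.SingularCardinals

universe u

/-- The density of a space: the least cardinality of a dense subset. -/
noncomputable def density (X : Type u) [TopologicalSpace X] : Cardinal.{u} :=
  sInf {c : Cardinal.{u} | ∃ D : Set X, Dense D ∧ Cardinal.mk D = c}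

/-- `τ` has countable cofinality, and `κ ^ ℵ₀ ≤ τ` for all `κ < τ`. -/
def Admissible (τ : Cardinal.{u}) : Prop :=
  τ.ord.cof = ℵ₀ ∧ ∀ κ < τ, κ ^ ℵ₀ ≤ τ

/-- There is a Tychonoff space `X` with a basis of clopen sets and with exactly `τ⁺` points, all of
whose closed subspaces have density at most `τ`, but which has a subspace of density `τ⁺`. -/
def CounterexampleAt (τ : Cardinal.{u}) : Prop :=
  ∃ (X : Type u) (_ : TopologicalSpace X), T35Space X ∧
    TopologicalSpace.IsTopologicalBasis {s : Set X | IsClopen s} ∧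
    Cardinal.mk X = Order.succ τ ∧
    (∀ Y : Set X, IsClosed Y → density Y ≤ τ) ∧
    ∃ Z : Set X, density Z = Order.succ τ

theorem density_le {X : Type u} [TopologicalSpace X] {D : Set X} (hD : Dense D) :
    density X ≤ Cardinal.mk D :=
  csInf_le' ⟨D, hD, rfl⟩

theorem exists_dense (X : Type u) [TopologicalSpace X] :
    ∃ D : Set X, Dense D ∧ Cardinal.mk D = density X :=
  csInf_mem (s := {c : Cardinal.{u} | ∃ D : Set X, Dense D ∧ Cardinal.mk D = c})
    ⟨_, Set.univ, dense_univ, rfl⟩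

theorem density_sub_le {X : Type u} [TopologicalSpace X] {Y D : Set X} (hDY : D ⊆ Y)
    (hYD : Y ⊆ closure D) : density Y ≤ Cardinal.mk D := by
  have h1 : Dense ((Subtype.val : Y → X) ⁻¹' D) := by
    rw [Subtype.dense_iff, Subtype.image_preimage_coe, Set.inter_eq_self_of_subset_right hDY]
    exact hYD
  refine (density_le h1).trans ?_
  refine Cardinal.mk_le_of_injective
    (f := fun x : ((Subtype.val : Y → X) ⁻¹' D) => (⟨x.1.1, x.2⟩ : D)) ?_
  intro x y hxy
  have := congrArg Subtype.val hxy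
  exact Subtype.ext (Subtype.ext this)

theorem exists_sub {X : Type u} [TopologicalSpace X] (Y : Set X) :
    ∃ D ⊆ Y, Y ⊆ closure D ∧ Cardinal.mk D ≤ density Y := by
  obtain ⟨D, hD, hD2⟩ := exists_dense Y
  refine ⟨Subtype.val '' D, by simp, ?_, ?_⟩
  · exact Subtype.dense_iff.1 hD
  · rw [← hD2]; exact Cardinal.mk_image_le

theorem counterexample {τ : Cardinal.{u}} (hτ : Admissible τ) : CounterexampleAt τ := by
  obtain ⟨κ, hκ⟩ := Pool.Agent.Work.MP_a33cdf_gt.General.exists_good hτ.1 hτ.2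
  obtain ⟨X, hX, h1, h2, h3, h4, Z, hZ⟩ := Pool.Agent.Work.MP_a33cdf_gt.General.main_good hκ
  have h5 : Cardinal.mk X ≤ Order.succ τ := by
    refine h3.trans ?_
    rw [Cardinal.mk_toType, Cardinal.card_ord]
    exact (Cardinal.add_eq_left (hκ.aleph0_le.trans (Order.le_succ τ)) (Order.le_succ τ)).le
  have h6 : Order.succ τ ≤ density Z := by
    apply Order.succ_le_of_lt
    by_contra hle
    apply hZ
    obtain ⟨D, hD1, hD2, hD3⟩ := exists_sub Z
    exact ⟨D, hD1, hD2, hD3.trans (not_lt.1 hle)⟩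
  have h7 : density Z ≤ Cardinal.mk X :=
    (density_sub_le (subset_refl Z) subset_closure).trans (Cardinal.mk_set_le Z)
  refine ⟨X, hX, h1, h2, le_antisymm h5 (h6.trans h7), ?_, Z, le_antisymm (h7.trans h5) h6⟩
  intro Y hY
  obtain ⟨D, hD1, hD2, hD3⟩ := h4 Y hY
  exact (density_sub_le hD1 hD2).trans hD3

theorem admissible_of_strongLimit {τ : Cardinal.{u}} (h0 : ℵ₀ < τ) (hτ : τ.IsStrongLimit)
    (hc : τ.ord.cof = ℵ₀) : Admissible τ := by
  refine ⟨hc, ?_⟩
  intro κ hκ
  have h1 : ℵ₀ ≤ max κ ℵ₀ := le_max_right _ _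
  have h2 : κ ^ ℵ₀ ≤ 2 ^ max κ ℵ₀ := by
    calc κ ^ ℵ₀ ≤ (max κ ℵ₀) ^ ℵ₀ := Cardinal.power_le_power_right (le_max_left _ _)
      _ ≤ (2 ^ max κ ℵ₀) ^ ℵ₀ := Cardinal.power_le_power_right (Cardinal.cantor _).le
      _ = 2 ^ (max κ ℵ₀ * ℵ₀) := (Cardinal.power_mul).symm
      _ = 2 ^ max κ ℵ₀ := by
        rw [Cardinal.mul_eq_left h1 h1 Cardinal.aleph0_ne_zero]
  exact h2.trans (hτ.two_power_lt (max_lt hκ h0)).le

theorem exists_large (μ : Cardinal.{u}) :
    ∃ τ : Cardinal.{u}, μ ≤ τ ∧ ℵ₀ < τ ∧ τ.IsStrongLimit ∧ τ.ord.cof = ℵ₀ := by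
  have hlim : Order.IsSuccLimit (μ.ord + ω) := Ordinal.isSuccLimit_add _ isSuccLimit_omega0
  refine ⟨ℶ_ (μ.ord + ω), ?_, ?_, ?_, ?_⟩
  · exact (Cardinal.le_beth_ord μ).trans (Cardinal.beth_mono (le_self_add))
  · rw [← Cardinal.beth_zero]
    exact Cardinal.beth_strictMono (lt_of_lt_of_le omega0_pos (le_add_self))
  · exact Cardinal.isStrongLimit_beth.2 hlim.isSuccPrelimit
  · have h := cof_map_of_isNormal (Cardinal.isNormal_ord.comp Cardinal.isNormal_beth) hlim
    rw [Function.comp_apply] at h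
    rw [h, cof_add _ omega0_ne_zero, cof_omega0]

/-- For every cardinal `τ` of countable cofinality with `κ ^ ℵ₀ ≤ τ` for all `κ < τ`, in
particular for every uncountable strong limit cardinal of countable cofinality, there is a
counterexample at `τ`; and there are arbitrarily large such cardinals. -/
theorem result : (∀ τ : Cardinal.{u}, Admissible τ → CounterexampleAt τ) ∧
    (∀ τ : Cardinal.{u}, ℵ₀ < τ → τ.IsStrongLimit → τ.ord.cof = ℵ₀ → Admissible τ) ∧
    ∀ μ : Cardinal.{u}, ∃ τ : Cardinal.{u}, μ ≤ τ ∧ ℵ₀ < τ ∧ τ.IsStrongLimit ∧ τ.ord.cof = ℵ₀ :=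
  ⟨fun _ h => counterexample h, fun _ h1 h2 h3 => admissible_of_strongLimit h1 h2 h3, exists_large⟩

end Pool.Agent.Results.MP_a33cdf_gt.SingularCardinals
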